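import Mathlib
import Pool.Agent.Lib.MP_edb5be_nt.H26W.Data
import Pool.Agent.Lib.MP_edb5be_nt.H26U.DP

/-!
# The multiplicative supersolution
-/

set_option autoImplicit false

namespace Pool.Agent.Lib.MP_edb5be_nt.H26W

open Function H26T H26U

/-- values at large indices -/
def WC (i : ℕ) : ℕ := Nat.mul (Nat.mod (Nat.shiftRight WTC (Nat.mul 32 (bif Nat.ble 418 i then
    Nat.add 418 (Nat.mod (Nat.sub i 418) 82) else i))) 4294967296)
  (Nat.pow 2 (Nat.div (Nat.sub i 418) 82))

/-- the supersolution -/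
def WF (a j : ℕ) : ℕ := bif Nat.ble j 439 then
    Nat.mod (Nat.shiftRight (List.getD WT a 0) (Nat.mul 24 j)) 16777216
  else WC (Nat.sub j 440)

/-- the supersolution on states -/
def WS (s : ℕ × ℕ) : ℕ := WF s.1 s.2

theorem WC_add {i : ℕ} (h : 418 ≤ i) : WC (i + 82) = 2 * WC i := by
  rw [WC, WC, Nat.ble_eq_true_of_le h, Nat.ble_eq_true_of_le (show 418 ≤ i + 82 by omega),
    cond_true, cond_true]
  have e1 : Nat.mod (Nat.sub (i + 82) 418) 82 = Nat.mod (Nat.sub i 418) 82 := by
    show (i + 82 - 418) % 82 = (i - 418) % 82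
    omega
  have e2 : Nat.div (Nat.sub (i + 82) 418) 82 = Nat.div (Nat.sub i 418) 82 + 1 := by
    show (i + 82 - 418) / 82 = (i - 418) / 82 + 1
    omega
  rw [e1, e2]
  generalize Nat.mod (Nat.shiftRight WTC (Nat.mul 32 (Nat.add 418 (Nat.mod (Nat.sub i 418) 82))))
    4294967296 = X
  show X * 2 ^ (Nat.div (Nat.sub i 418) 82 + 1) = 2 * (X * 2 ^ Nat.div (Nat.sub i 418) 82)
  rw [pow_succ]
  ring

theorem WF_large {a j : ℕ} (h : 439 < j) : WF a j = WC (j - 440) := by
  rw [WF]
  have : Nat.ble j 439 = false := by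
    rw [Bool.eq_false_iff]
    intro hcon
    have := Nat.le_of_ble_eq_true hcon
    omega
  rw [this]
  rfl

/-- check in one class -/
noncomputable def chkW (a : ℕ) : ℕ → Bool := fun n =>
  Nat.rec (motive := fun _ => Bool) true (fun j ih => and (and (Nat.ble (Nat.mul 10339 (Nat.add
    (gnode WF (aE a) (Nat.sub j 41)) (gnode WF (aO a) (Nat.add j (sO j)))))
    (Nat.mul 20000 (WF a j))) (Nat.ble (VF a j) (WF a j))) ih) n

theorem chkW_spec (a n : ℕ) (h : chkW a n = true) : ∀ j < n,
    10339 * (gnode WF (aE a) (j - 41) + gnode WF (aO a) (j + sO j)) ≤ 20000 * WF a j ∧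
      VF a j ≤ WF a j := by
  induction n with
  | zero => intro j hj; omega
  | succ n ih =>
    intro j hj
    have h1 : chkW a (n + 1) = and (and (Nat.ble (Nat.mul 10339 (Nat.add
      (gnode WF (aE a) (Nat.sub n 41)) (gnode WF (aO a) (Nat.add n (sO n)))))
      (Nat.mul 20000 (WF a n))) (Nat.ble (VF a n) (WF a n))) (chkW a n) := rfl
    rw [h1, Bool.and_eq_true, Bool.and_eq_true] at h
    rcases Nat.lt_or_ge j n with hjn | hjn
    · exact ih h.2 j hjn
    · have : j = n := by omega
      subst this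
      exact ⟨Nat.le_of_ble_eq_true h.1.1, Nat.le_of_ble_eq_true h.1.2⟩

set_option maxRecDepth 100000 in
theorem chkW_all : ∀ a ∈ [1, 2, 4, 5, 7, 8, 10, 11, 13, 14, 16, 17, 19, 20, 22, 23, 25, 26],
    chkW a 899 = true := by decide +kernel

theorem chkC : ∀ i < 82, 10339 * (WC (i + 418) + WC (i + 483)) ≤ 20000 * WC (i + 459) ∧
    4371714 + 10000 * (460 + i) ≤ WC (i + 459) := by decide +kernel

theorem large_super : ∀ i, 10339 * (WC (i + 418) + WC (i + 483)) ≤ 20000 * WC (i + 459) ∧
    4371714 + 10000 * (460 + i) ≤ WC (i + 459) := by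
  intro i
  induction i using Nat.strong_induction_on with
  | _ i ih =>
    rcases Nat.lt_or_ge i 82 with h | h
    · exact chkC i h
    · obtain ⟨k, rfl⟩ : ∃ k, i = k + 82 := ⟨i - 82, by omega⟩
      obtain ⟨h1, h2⟩ := ih k (by omega)
      have a1 := WC_add (i := k + 418) (by omega)
      have a2 := WC_add (i := k + 483) (by omega)
      have a3 := WC_add (i := k + 459) (by omega)
      rw [show k + 82 + 418 = k + 418 + 82 by omega, show k + 82 + 483 = k + 483 + 82 by omega,
        show k + 82 + 459 = k + 459 + 82 by omega, a1, a2, a3]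
      generalize WC (k + 418) = A at *
      generalize WC (k + 483) = B at *
      generalize WC (k + 459) = D at *
      constructor <;> omega

theorem WF_super {a : ℕ} (ha : a ∈ cls) (j : ℕ) :
    10339 * (gnode WF (aE a) (j - 41) + gnode WF (aO a) (j + sO j)) ≤ 20000 * WF a j ∧
      VF a j ≤ WF a j := by
  rcases Nat.lt_or_ge j 899 with h | h
  · exact chkW_spec a 899 (chkW_all a (cls_list ha)) j h
  · obtain ⟨i, rfl⟩ : ∃ i, j = i + 899 := ⟨j - 899, by omega⟩
    have h1 := gnode_le WF (aE a) (i + 899 - 41)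
    have h2 := gnode_le WF (aO a) (i + 899 + sO (i + 899))
    obtain ⟨h3, h4⟩ := large_super i
    rw [sO_large (by omega)] at h2 ⊢
    rw [WF_large (by omega)] at h1 h2 ⊢
    rw [VF_large (by omega)]
    rw [show i + 899 - 41 - 440 = i + 418 by omega] at h1
    rw [show i + 899 + 24 - 440 = i + 483 by omega] at h2
    rw [show i + 899 - 440 = i + 459 by omega, show i + 899 - 439 = 460 + i by omega]
    constructor
    · refine le_trans (Nat.mul_le_mul_left _ (Nat.add_le_add h1 h2)) h3
    · exact h4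

theorem WS_super (s : ℕ × ℕ) (hs : s.1 ∈ cls) :
    10339 * (oe WS (step2 false s) + oe WS (step2 true s)) ≤ 20000 * WS s := by
  obtain ⟨a, j⟩ := s
  have h := (WF_super hs j).1
  rw [oe_step2_E, oe_step2_O]
  rw [gnode_eq, gnode_eq] at h
  exact h

theorem VS_le_WS (s : ℕ × ℕ) (hs : s.1 ∈ cls) : VS s ≤ WS s := (WF_super hs s.2).2

theorem tot_WS_le (n : ℕ) {a : ℕ} (ha : a ∈ cls) (j : ℕ) :
    tot step2 WS n (a, j) ≤ 2 ^ n * WF a j := by
  refine tot_super step2 WS (fun s => s.1 ∈ cls) step2_cls ?_ n (a, j) ha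
  intro s hs
  have := WS_super s hs
  omega

/-- The averages of the additive supersolution decrease geometrically. -/
theorem geo (n : ℕ) : ∀ s : ℕ × ℕ, s.1 ∈ cls →
    10339 ^ n * tot step2 VS n s ≤ 20000 ^ n * WS s := by
  induction n with
  | zero =>
    intro s hs
    rw [pow_zero, pow_zero, one_mul, one_mul]
    exact VS_le_WS s hs
  | succ n ih =>
    intro s hs
    have key : ∀ b : Bool, 10339 ^ n * oe (tot step2 VS n) (step2 b s) ≤
        20000 ^ n * oe WS (step2 b s) := by
      intro b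
      rcases hb : step2 b s with _ | s'
      · rw [oe_none, oe_none, mul_zero, mul_zero]
      · rw [oe_some, oe_some]
        exact ih s' (step2_cls b s s' hs hb)
    have h0 := key false
    have h1 := key true
    have h2 := WS_super s hs
    rw [tot, pow_succ, pow_succ]
    generalize oe (tot step2 VS n) (step2 false s) = A at *
    generalize oe (tot step2 VS n) (step2 true s) = B at *
    generalize oe WS (step2 false s) = A' at *
    generalize oe WS (step2 true s) = B' at *
    calc 10339 ^ n * 10339 * (A + B) = 10339 * (10339 ^ n * A + 10339 ^ n * B) := by ring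
      _ ≤ 10339 * (20000 ^ n * A' + 20000 ^ n * B') :=
        Nat.mul_le_mul_left _ (Nat.add_le_add h0 h1)
      _ = 20000 ^ n * (10339 * (A' + B')) := by ring
      _ ≤ 20000 ^ n * (20000 * WS s) := Nat.mul_le_mul_left _ h2
      _ = _ := by ring

end Pool.Agent.Lib.MP_edb5be_nt.H26W
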