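import Mathlib
import Pool.Agent.Lib.MP_edb5be_nt.H26W.Fun

/-!
# The averages of the multiplicative supersolution, computed with packed vectors
-/

set_option autoImplicit false

namespace Pool.Agent.Lib.MP_edb5be_nt.H26W

open Function H26T H26U

/-- the filler -/
def FLW : ℕ := 18861526414710520176902450311085151505834306690280601705964024588073101676957933561920582636407272732755050109118499411428910381287742541081316013516715408998171513463449546431858747557706449848101727090463383233827846066357484438973254787690563264142507921877759079194343255102874692266648224846541712908574582459331836737719397296844160116806777806577773887885533687368511729167160132291653928227331524207688112129619645999298392028674957897451565219877059294482550830639146790290822477112095825706030627670851603824646865521567260763291004313300373916975346933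

theorem FLW_eq : FLW = pk (fun i => WC (i + 328)) 24 := by decide +kernel

theorem WC_le : ∀ i < 352, WC i ≤ 1073741823 := by decide +kernel

theorem WF_le {a j : ℕ} (hj : j < 792) : WF a j ≤ 1073741823 := by
  rcases Nat.lt_or_ge 439 j with h | h
  · rw [WF_large h]
    exact WC_le _ (by omega)
  · rw [WF, Nat.ble_eq_true_of_le h, cond_true]
    have h1 := Nat.mod_lt (Nat.shiftRight (List.getD WT a 0) (Nat.mul 24 j))
      (show 16777216 > 0 by norm_num)
    exact (Nat.le_of_lt_succ h1).trans (by norm_num)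

/-- A packed upper bound of the averages. -/
def Rep (n a P : ℕ) : Prop := ∃ f : ℕ → ℕ, P = pk f 768 ∧ (∀ j < 768, f j ≤ 2 ^ n * 1073741823) ∧
  ∀ j < 768, tot step2 WS n (a, j) ≤ f j

/-- the filler as a function -/
def FF (n j : ℕ) : ℕ := WC (j - 416) * 2 ^ n

theorem rep_step {n a PE PO : ℕ} (hn : n ≤ 48) (hE : Rep n (aE a) PE)
    (hO : Rep n (aO a) PO) :
    Rep (n + 1) a (Nat.add (EP PE (kk (aE a)))
      (ob (CL PO (kk (aO a))) (Nat.mul FLW (Nat.pow 2 n)) segs 0)) := by
  obtain ⟨f, hPE, hf1, hf2⟩ := hE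
  obtain ⟨g, hPO, hg1, hg2⟩ := hO
  have hbd : 2 ^ n * 1073741823 < 2 ^ 80 := by
    calc 2 ^ n * 1073741823 ≤ 2 ^ 48 * 1073741823 :=
          Nat.mul_le_mul_right _ (Nat.pow_le_pow_right (by norm_num) hn)
      _ < 2 ^ 80 := by norm_num
  have hf : ∀ j < 768, f j < 2 ^ 80 := fun j hj => lt_of_le_of_lt (hf1 j hj) hbd
  have hg : ∀ j < 768, g j < 2 ^ 80 := fun j hj => lt_of_le_of_lt (hg1 j hj) hbd
  rw [hPE, hPO, EP_pk hf (kk_lt _), CL_pk hg (kk_lt _)]
  have hF : Nat.mul FLW (Nat.pow 2 n) = pk (fun i => FF n (744 + i)) 24 := by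
    show FLW * 2 ^ n = _
    rw [FLW_eq, pk_mul]
    refine pk_congr 24 fun i _ => ?_
    rw [FF, show 744 + i - 416 = i + 328 by omega]
  rw [hF, ob_pk (F := FF n) (fun j hj => by
    by_cases h : j < kk (aO a) + 1
    · simp only [h, if_true]; positivity
    · simp only [h, if_false]; exact hg j hj) segs 0 segs_ok]
  have hadd : ∀ x y : ℕ, Nat.add x y = x + y := fun _ _ => rfl
  rw [hadd, Nat.sub_zero, pk_add]
  refine ⟨_, rfl, ?_, ?_⟩
  · intro j hj
    simp only [Nat.zero_add]
    have h1 : (if j < kk (aE a) + 42 then 0 else f (j - 41)) ≤ 2 ^ n * 1073741823 := by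
      split_ifs
      · exact Nat.zero_le _
      · exact hf1 _ (by omega)
    have h2 : (if j < 744 then (if j + sO j < kk (aO a) + 1 then 0 else g (j + sO j))
        else FF n j) ≤ 2 ^ n * 1073741823 := by
      split_ifs with h3 h4
      · exact Nat.zero_le _
      · exact hg1 _ (sO_le j h3)
      · rw [FF, mul_comm]
        exact Nat.mul_le_mul_left _ (WC_le _ (by omega))
    calc _ ≤ 2 ^ n * 1073741823 + 2 ^ n * 1073741823 := Nat.add_le_add h1 h2
      _ = _ := by rw [pow_succ]; ring
  · intro j hj
    simp only [Nat.zero_add]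
    rw [tot, oe_step2_E, oe_step2_O]
    refine Nat.add_le_add ?_ ?_
    · by_cases h : j - 41 ≤ kk (aE a)
      · rw [if_pos h]
        exact Nat.zero_le _
      · rw [if_neg h, if_neg (by omega)]
        exact hf2 _ (by omega)
    · by_cases h : j + sO j ≤ kk (aO a)
      · rw [if_pos h]
        exact Nat.zero_le _
      · rw [if_neg h]
        by_cases h3 : j < 744
        · rw [if_pos h3, if_neg (by omega)]
          exact hg2 _ (sO_le j h3)
        · rw [if_neg h3]
          have h4 := tot_WS_le n (aO_cls a) (j + sO j)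
          rw [sO_large (by omega)] at h4 ⊢
          rw [WF_large (by omega)] at h4
          rw [FF, mul_comm, show j - 416 = j + 24 - 440 by omega]
          exact h4

/-- one backward step -/
def stp (n : ℕ) (l : List ℕ) : List ℕ := nlist l (olist (Nat.mul FLW (Nat.pow 2 n)) l)

/-- the initial vectors -/
noncomputable def l0 : List ℕ := l27.map (fun a => Nat.add (pkb (WF a) 9 0)
  (Nat.shiftLeft (pkb (WF a) 8 512) 40960))

/-- the iteration -/
noncomputable def it (n : ℕ) : List ℕ :=
  Nat.rec (motive := fun _ => List ℕ) l0 (fun n ih => stp n ih) n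

theorem rep_zero {a : ℕ} (ha : a ∈ cls) : Rep 0 a (l0.getD a 0) := by
  have h1 : l0.getD a 0 = pkb (WF a) 9 0 + Nat.shiftLeft (pkb (WF a) 8 512) (80 * 512) :=
    l27_getD _ (mem_cls.1 ha).1
  rw [h1, pkb_eq, pkb_eq, pk_shl]
  refine ⟨WF a, ?_, ?_, ?_⟩
  · rw [show (2 : ℕ) ^ 9 = 512 by norm_num, show (2 : ℕ) ^ 8 = 256 by norm_num,
      show 768 = 512 + 256 by norm_num, pk_len, pk_len]
    rw [pk_congr (f := fun j => if j < 512 then 0 else _) (g := fun _ => 0) 512
      (fun j hj => by simp [hj]), pk_zero, Nat.zero_add]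
    have e1 : pk (fun j => WF a (0 + j)) 512 = pk (WF a) 512 := pk_congr 512 fun j _ => by simp
    have e2 : pk (fun j => if 512 + j < 512 then 0 else WF a (512 + (512 + j - 512))) 256
        = pk (fun j => WF a (512 + j)) 256 := by
      refine pk_congr 256 fun j _ => ?_
      rw [if_neg (by omega)]
      exact congrArg (WF a) (by omega)
    rw [e1, e2]
  · intro j hj
    rw [pow_zero, one_mul]
    exact WF_le (by omega)
  · intro j hj
    exact le_rfl

theorem rep_it (n : ℕ) (hn : n ≤ 49) : ∀ a ∈ cls, Rep n a ((it n).getD a 0) := by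
  induction n with
  | zero => intro a ha; exact rep_zero ha
  | succ n ih =>
    intro a ha
    have ih' := ih (by omega)
    have hlt := (mem_cls.1 ha).1
    have hO := aO_cls a
    have hOlt := (mem_cls.1 hO).1
    have e0 : it (n + 1) = stp n (it n) := rfl
    rw [e0, stp, nlist, l27_getD _ hlt, olist, l27_getD _ hOlt]
    exact rep_step (by omega) (ih' _ (aE_cls ha)) (ih' _ hO)

/-- lookup -/
def look (l : List ℕ) (n a j : ℕ) : ℕ := bif Nat.ble 768 j then Nat.mul (Nat.pow 2 n) (WF a j)
  else slot (l.getD a 0) j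

theorem tot_le_look (n : ℕ) (hn : n ≤ 49) {a : ℕ} (ha : a ∈ cls) (j : ℕ) :
    tot step2 WS n (a, j) ≤ look (it n) n a j := by
  rcases Nat.lt_or_ge j 768 with h | h
  · have h1 : Nat.ble 768 j = false := by
      rw [Bool.eq_false_iff]
      intro hcon
      have := Nat.le_of_ble_eq_true hcon
      omega
    obtain ⟨f, hf, hf1, hf2⟩ := rep_it n hn a ha
    have hbd : 2 ^ n * 1073741823 < 2 ^ 80 := by
      calc 2 ^ n * 1073741823 ≤ 2 ^ 49 * 1073741823 :=
            Nat.mul_le_mul_right _ (Nat.pow_le_pow_right (by norm_num) hn)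
        _ < 2 ^ 80 := by norm_num
    rw [look, h1, cond_false, hf, slot_pk (fun j hj => lt_of_le_of_lt (hf1 j hj) hbd) h]
    exact hf2 j h
  · rw [look, Nat.ble_eq_true_of_le h, cond_true]
    exact tot_WS_le n ha j

theorem TG_le (m : ℕ) (hm : m ≤ 49) {a : ℕ} (ha : a ∈ cls) :
    TG WS m a ≤ TT (look (it m) m) 14 a := by
  have e1 : TT (look (it m) m) 14 a = tr (look (it m) m) 14 (init a).a (init a).x (init a).p
    (init a).q (init a).t := rfl
  rw [e1, tr_eq, TG]
  refine tot_mono step1 (fun s => s.a ∈ cls) step1_cls ?_ 14 (init a) ha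
  intro s hs
  exact Nat.mul_le_mul_left _ (tot_le_look m hm hs _)

/-- sum over the classes -/
noncomputable def SS (m : ℕ) (L : List ℕ) : List ℕ → ℕ := fun l =>
  List.rec (motive := fun _ => ℕ) 0 (fun a _ ih => Nat.add (TT (look L m) 14 a) ih) l

theorem SS_eq (m : ℕ) : ∀ l : List ℕ, SS m (it m) l = (l.map (TT (look (it m) m) 14)).sum := by
  intro l
  induction l with
  | nil => rfl
  | cons a l ih =>
    rw [List.map_cons, List.sum_cons, ← ih]
    rfl

theorem sum_TG (m : ℕ) (hm : m ≤ 49) : ∑ a ∈ cls, TG WS m a ≤ SS m (it m) cl18 := by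
  have h1 : ∑ a ∈ cls, TG WS m a ≤ ∑ a ∈ cls, TT (look (it m) m) 14 a :=
    Finset.sum_le_sum fun a ha => TG_le m hm ha
  refine h1.trans (le_of_eq ?_)
  rw [SS_eq]
  have h2 : cls = cl18.toFinset := by decide
  rw [h2, List.sum_toFinset _ (by decide)]

set_option maxRecDepth 100000 in
theorem numW : SS 3 (it 3) cl18 ≤ 561416903150617621644 := by decide +kernel

end Pool.Agent.Lib.MP_edb5be_nt.H26W
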