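import Mathlib
import Pool.Agent.Lib.MP_edb5be_nt.H26W.DP

/-!
# Explicit tails
-/

set_option autoImplicit false

namespace Pool.Agent.Lib.MP_edb5be_nt.H26W

open Function H13 H26U
open H26T (tot tot_mul tot_mono tot_tot)

theorem geoTG (n : ℕ) {a : ℕ} (ha : a ∈ cls) :
    10339 ^ n * H26U.TG H26U.VS (3 + n) a ≤ 20000 ^ n * H26U.TG WS 3 a := by
  rw [H26U.TG, H26U.TG, ← tot_mul, ← tot_mul]
  refine tot_mono H26U.step1 (fun s => s.a ∈ H26U.cls) H26U.step1_cls ?_ 14 (H26U.init a) ha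
  intro s hs
  have h1 : 10339 ^ n * tot H26U.step2 H26U.VS (3 + n) (s.a, H26U.idx s.x) ≤
      20000 ^ n * tot H26U.step2 WS 3 (s.a, H26U.idx s.x) := by
    rw [← tot_tot, ← tot_mul, ← tot_mul]
    exact tot_mono H26U.step2 (fun s => s.1 ∈ H26U.cls) H26U.step2_cls
      (fun s hs => geo n s hs) 3 _ hs
  calc 10339 ^ n * (s.t * tot H26U.step2 H26U.VS (3 + n) (s.a, H26U.idx s.x))
      = s.t * (10339 ^ n * tot H26U.step2 H26U.VS (3 + n) (s.a, H26U.idx s.x)) := by ring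
    _ ≤ s.t * (20000 ^ n * tot H26U.step2 WS 3 (s.a, H26U.idx s.x)) :=
      Nat.mul_le_mul_left _ h1
    _ = _ := by ring

attribute [local irreducible] H26W.SS H26W.it H26U.TG

theorem totW : ∑ a ∈ H26U.cls, H26U.TG WS 3 a ≤ 561416903150617621644 :=
  le_trans (sum_TG 3 (by norm_num)) numW

theorem sumV (n : ℕ) : (10339 : ℝ) ^ n * (∑ a ∈ H26U.cls, H26U.TG H26U.VS (3 + n) a : ℕ) ≤
    20000 ^ n * 561416903150617621644 := by
  have h1 : 10339 ^ n * ∑ a ∈ H26U.cls, H26U.TG H26U.VS (3 + n) a ≤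
      20000 ^ n * 561416903150617621644 := by
    rw [Finset.mul_sum]
    refine (Finset.sum_le_sum fun a ha => geoTG n ha).trans ?_
    rw [← Finset.mul_sum]
    exact Nat.mul_le_mul_left _ totW
  exact_mod_cast h1

/-- the main estimate of the tail -/
theorem tail_num (n : ℕ) : 319 / 420 * (∑ a ∈ H26U.cls, H26U.TG H26U.VS (17 + n - 14) a : ℕ) /
    (27000000000 * ((85000 : ℕ) : ℝ) * 2 ^ (17 + n)) ≤ 1.4176 * (10000 / 10339) ^ n := by
  rw [show 17 + n - 14 = 3 + n by omega]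
  have h := sumV n
  generalize ((∑ a ∈ H26U.cls, H26U.TG H26U.VS (3 + n) a : ℕ) : ℝ) = X at h
  have hp : (0 : ℝ) < 10339 ^ n := by positivity
  rw [div_le_iff₀ (by positivity)]
  have e1 : (1.4176 : ℝ) * (10000 / 10339) ^ n *
      (27000000000 * ((85000 : ℕ) : ℝ) * 2 ^ (17 + n)) =
      1.4176 * 27000000000 * 85000 * 2 ^ 17 * (20000 ^ n / 10339 ^ n) := by
    rw [div_pow, pow_add, show (20000 : ℝ) = 10000 * 2 by norm_num, mul_pow]
    push_cast
    ring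
  rw [e1]
  have h2 : X ≤ 561416903150617621644 * (20000 ^ n / 10339 ^ n) := by
    rw [mul_div_assoc', le_div_iff₀ hp]
    linarith
  have h3 : (0 : ℝ) ≤ 20000 ^ n / 10339 ^ n := by positivity
  nlinarith

theorem rate : (2 : ℝ) ^ (0.048 : ℝ) ≤ 10339 / 10000 := by
  have h1 : ((2 : ℝ) ^ (0.048 : ℝ)) ^ 125 = 2 ^ 6 := by
    rw [← Real.rpow_natCast, ← Real.rpow_mul (by norm_num), ← Real.rpow_natCast]
    norm_num
  have h2 : ((2 : ℝ) ^ (0.048 : ℝ)) ^ 125 ≤ (10339 / 10000) ^ 125 := by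
    rw [h1]
    norm_num
  exact le_of_pow_le_pow_left₀ (by norm_num) (by norm_num) h2

theorem root : (28311552 : ℝ) ^ (0.048 : ℝ) ≤ 2.2788 := by
  have h1 : ((28311552 : ℝ) ^ (0.048 : ℝ)) ^ 125 = 28311552 ^ 6 := by
    rw [← Real.rpow_natCast, ← Real.rpow_mul (by norm_num), ← Real.rpow_natCast]
    norm_num
  have h2 : ((28311552 : ℝ) ^ (0.048 : ℝ)) ^ 125 ≤ 2.2788 ^ 125 := by
    rw [h1]
    norm_num
  exact le_of_pow_le_pow_left₀ (by norm_num) (by norm_num) h2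

/-- powers -/
theorem pw (n : ℕ) {m : ℝ} (hm : 0 < m) (h : m ≤ 28311552 * 2 ^ n) :
    (10000 / 10339 : ℝ) ^ n ≤ 2.2788 * m ^ (-0.048 : ℝ) := by
  have h1 : m ^ (0.048 : ℝ) ≤ 2.2788 * (10339 / 10000) ^ n := by
    calc m ^ (0.048 : ℝ) ≤ (28311552 * 2 ^ n) ^ (0.048 : ℝ) :=
          Real.rpow_le_rpow hm.le h (by norm_num)
      _ = 28311552 ^ (0.048 : ℝ) * ((2 : ℝ) ^ (0.048 : ℝ)) ^ n := by
          rw [Real.mul_rpow (by norm_num) (by positivity), ← Real.rpow_natCast, ← Real.rpow_natCast,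
            ← Real.rpow_mul (by norm_num), ← Real.rpow_mul (by norm_num), mul_comm (n : ℝ)]
      _ ≤ 2.2788 * (10339 / 10000) ^ n := by
          have h2 := rate
          have h3 := root
          have h4 : (0 : ℝ) ≤ (2 : ℝ) ^ (0.048 : ℝ) := by positivity
          exact mul_le_mul h3 (pow_le_pow_left₀ h4 h2 n) (by positivity) (by norm_num)
  have h5 : (10000 / 10339 : ℝ) ^ n = 1 / (10339 / 10000) ^ n := by
    rw [div_pow, div_pow, one_div_div]
  rw [show (-0.048 : ℝ) = -(0.048 : ℝ) by norm_num, Real.rpow_neg hm.le, h5, ← div_eq_mul_inv,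
    div_le_div_iff₀ (by positivity) (Real.rpow_pos_of_pos hm _)]
  linarith

theorem NN_ge {y : ℤ} {m N : ℕ} (hy : m ≤ y.natAbs) (hm : 108 * 2 ^ N ≤ m) : N ≤ NN y := by
  rw [NN]
  refine Nat.le_log_of_pow_le (by norm_num) ?_
  rw [Nat.le_div_iff_mul_le (by norm_num)]
  omega

theorem NN_nat {M : ℕ} (hM : 14155776 ≤ M) : ∃ n : ℕ, 108 * 2 ^ (17 + n) ≤ M ∧
    M < 28311552 * 2 ^ n := by
  obtain ⟨h1, h2⟩ := H26U.NN_spec (y := (M : ℤ)) (by omega)
  have h3 : 17 ≤ NN (M : ℤ) := NN_ge (m := 14155776) (by omega) (by norm_num)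
  obtain ⟨n, hn⟩ : ∃ n, NN (M : ℤ) = 17 + n := ⟨NN (M : ℤ) - 17, by omega⟩
  rw [hn] at h1 h2
  refine ⟨n, ?_, ?_⟩
  · simpa using h1
  · rw [Int.natAbs_natCast, pow_add] at h2
    norm_num at h2
    omega

end Pool.Agent.Lib.MP_edb5be_nt.H26W
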