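import Mathlib
import Pool.Agent.Lib.MP_edb5be_nt.H26W.Tail
import Pool.Agent.Lib.MP_edb5be_nt.H26T.Final

/-!
# Explicit tails for cycles
-/

set_option autoImplicit false

namespace Pool.Agent.Lib.MP_edb5be_nt.H26W

open Function H13
open H26U (VS VS_super toll_sound Big kap vv)

attribute [local irreducible] H26U.TG H26W.SS H26W.it

theorem nice_bigU {A : Finset ℤ} (hA : Nice A) {y : ℤ} (hy : y ∈ A) (N : ℕ) : Big y N :=
  fun i _ => le_trans (by norm_num) (hA.big _ (hA.iterate_mem i y hy))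

/-- cycles -/
theorem cyc_tail {A : Finset ℤ} (hA : Nice A) (M n : ℕ) (h1 : 108 * 2 ^ (17 + n) ≤ M)
    (hbig : ∀ y ∈ A, M ≤ y.natAbs) :
    ∑ y ∈ A, 1 / |(y : ℝ)| ≤ 1.4176 * (10000 / 10339) ^ n := by
  have hN : ∀ y ∈ A, 17 + n ≤ H26U.NN y := fun y hy => NN_ge (hbig y hy) h1
  have h16 : ∀ y ∈ A, 216 ≤ y.natAbs := by
    intro y hy
    have h := hA.big y hy
    rw [Int.abs_eq_natAbs] at h
    omega
  have h2 : ∑ y ∈ A, 1 / |(y : ℝ)| ≤
      ∑ y ∈ A, (vv (H26U.NN y) y : ℝ) / (1000000000 * |(y : ℝ)|) := by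
    refine H26T.sum_le_of_toll hA kap H26U.NN _ ?_ ?_ ?_
    · intro y hy
      exact H26U.NN_T (h16 y hy)
    · intro y _
      positivity
    · intro y hy
      exact toll_sound (nice_bigU hA hy _) (by have := hN y hy; omega)
  refine h2.trans ((H26U.sum_vv_high (17 + n) (by omega) 85000 (by norm_num) VS VS_super A hA.sign
    hA.three h16 hN).trans (tail_num n))

variable {ι : Type*}

/-- Explicit tail for unknown cycles of one sign. -/
theorem family_tail (F : Finset ι) (f : ι → ℤ)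
    (hF : ∀ i ∈ F, f i ∈ periodicPts T ∧ f i ∉ Dyn.known)
    (hdisj : (F : Set ι).PairwiseDisjoint (fun i => orb (f i)))
    (hsign : (∀ i ∈ F, 0 < f i) ∨ (∀ i ∈ F, f i < 0)) (y : ℝ) (hy : 1 ≤ y)
    (hbig : ∀ i ∈ F, ∀ z ∈ orb (f i), y ≤ |(z : ℝ)|) :
    ∑ i ∈ F, |lam (f i)| ≤ 0.81 * y ^ (-0.048 : ℝ) := by
  have hy0 : 0 < y := by linarith
  rcases le_or_gt y 28311552 with hle | hgt
  · have h1 := H26T.family_24 F f hF hdisj hsign
    have h2 := pw 0 hy0 (by simpa using hle)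
    rw [pow_zero] at h2
    refine h1.trans ?_
    linarith
  · obtain ⟨A, hA, hA2, h⟩ := H26T.family F f hF hdisj hsign
    rw [h]
    set M : ℕ := ⌈y⌉₊ with hM
    have hyM : y ≤ M := Nat.le_ceil y
    have hM1 : 14155776 ≤ M := by
      have : (28311552 : ℝ) < M := lt_of_lt_of_le hgt hyM
      have : 28311552 < M := by exact_mod_cast this
      omega
    obtain ⟨n, h1, h2⟩ := NN_nat hM1
    have h3 := cyc_tail hA M n h1 (fun z hz => by
      obtain ⟨i, hi, hz⟩ := hA2 z hz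
      have h4 := hbig i hi z hz
      rw [hM]
      refine Nat.ceil_le.2 ?_
      have h5 : |(z : ℝ)| = (z.natAbs : ℝ) := by
        rw [← Int.cast_abs, Int.abs_eq_natAbs]
        simp
      rwa [h5] at h4)
    have h4 := pw n hy0 (hyM.trans (by exact_mod_cast h2.le))
    refine (H26T.abs_lam_set hA h3).trans ?_
    have h5 : 0 ≤ y ^ (-0.048 : ℝ) := Real.rpow_nonneg hy0.le _
    linarith

end Pool.Agent.Lib.MP_edb5be_nt.H26W
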