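import Mathlib
import Pool.Agent.Lib.MP_edb5be_nt.H26W.Tail
import Pool.Agent.Lib.MP_edb5be_nt.H26U.Comb

/-!
# Explicit tails for pieces of trajectories
-/

set_option autoImplicit false

namespace Pool.Agent.Lib.MP_edb5be_nt.H26W

open Function H13
open H26U (VS VS_super toll_sound Big kap vv)

attribute [local irreducible] H26U.TG H26W.SS H26W.it

/-- pieces of trajectories -/
theorem piece_tail (n : ℕ) (hn : 1 ≤ n) (h3 : n % 3 ≠ 0) (j M k : ℕ)
    (hM : 14155776 ≤ M) (hk : 108 * 2 ^ (17 + k) ≤ M)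
    (hinj : ∀ a b, a < b → b < j → H26U.Tn^[a] n ≠ H26U.Tn^[b] n)
    (hlow : ∀ i < j, M ≤ H26U.Tn^[i] n) :
    ∑ i ∈ Finset.range j, 1 / (H26U.Tn^[i] n : ℝ) ≤ 1.4177 * (10000 / 10339) ^ k := by
  obtain ⟨A, hA1, hA2, hA3, hA⟩ := H26U.path_main (n : ℤ) (by omega) (by omega) j M (17 + k)
    (by omega)
    (fun a b hab hb => by
      rw [H26U.iter_cast, H26U.iter_cast]
      exact_mod_cast hinj a b hab hb)
    (fun i hi => by
      rw [H26U.iter_cast]
      exact_mod_cast hlow i hi)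
  have h1 := (H26U.sum_vv_high (17 + k) (by omega) 85000 (by norm_num) VS VS_super A (Or.inl hA1)
    hA2 (fun y hy => by have := hA3 y hy; omega)
    (fun y hy => H26U.NN_ge (m := M) (by have := hA3 y hy; omega) hk)).trans (tail_num k)
  have h4 : ∑ i ∈ Finset.range j, 1 / (H26U.Tn^[i] n : ℝ) =
      ∑ i ∈ Finset.range j, 1 / |((T^[i] (n : ℤ) : ℤ) : ℝ)| := by
    refine Finset.sum_congr rfl fun i _ => ?_
    rw [H26U.iter_cast]
    simp
  rw [h4]
  refine hA.trans ?_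
  have hP : (0 : ℝ) < 108 * 2 ^ (17 + k) := by positivity
  have hM' : (108 * 2 ^ (17 + k) : ℝ) ≤ M := by exact_mod_cast hk
  have h5 : ((17 + k : ℕ) : ℝ) / M ≤ ((17 + k : ℕ) : ℝ) / (108 * 2 ^ (17 + k)) := by
    gcongr
  have h6 : (18 + k : ℝ) / 2 ^ k ≤ 18 * (10000 / 10339) ^ k := by
    rw [div_le_iff₀ (by positivity), mul_assoc, ← mul_pow]
    have h7 := one_add_mul_le_pow (a := (1 / 18 : ℝ)) (by norm_num) k
    have h8 : (1 + 1 / 18 : ℝ) ^ k ≤ (10000 / 10339 * 2) ^ k :=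
      pow_le_pow_left₀ (by norm_num) (by norm_num) k
    linarith
  have h9 : ((17 + k : ℕ) : ℝ) / (108 * 2 ^ (17 + k)) + 1 / (108 * 2 ^ (17 + k)) =
      (18 + k : ℝ) / 2 ^ k / (108 * 2 ^ 17) := by
    rw [← add_div, pow_add]
    push_cast
    field_simp
    ring
  have h10 : (18 + k : ℝ) / 2 ^ k / (108 * 2 ^ 17) ≤ 18 * (10000 / 10339) ^ k / (108 * 2 ^ 17) := by
    gcongr
  have h11 : (0 : ℝ) < (10000 / 10339) ^ k := by positivity
  have h12 : ((17 + k : ℕ) : ℝ) / M + 1 / (108 * 2 ^ (17 + k)) ≤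
      18 * (10000 / 10339) ^ k / (108 * 2 ^ 17) := by linarith
  have h13 : 19 * (18 * (10000 / 10339 : ℝ) ^ k / (108 * 2 ^ 17)) ≤
      0.0001 * (10000 / 10339) ^ k := by
    rw [mul_div_assoc', div_le_iff₀ (by norm_num)]
    nlinarith
  linarith

/-- Explicit bound of the correction factor with a power saving. -/
theorem rt_tail (n : ℕ) (hn : 1 ≤ n) (j : ℕ) (m : ℝ) (hm : 2 ≤ m)
    (hinj : ∀ a b, a < b → b < j → H26U.Tn^[a] n ≠ H26U.Tn^[b] n)
    (hlow : ∀ i < j, m ≤ (H26U.Tn^[i] n : ℝ)) :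
    H26U.rt n j ≤ 1 + 1.6 * m ^ (-0.048 : ℝ) := by
  have hm0 : 0 < m := by linarith
  have hneg : m ^ (-0.048 : ℝ) = 1 / m ^ (0.048 : ℝ) := by
    rw [show (-0.048 : ℝ) = -(0.048 : ℝ) by norm_num, Real.rpow_neg hm0.le, one_div]
  have hmp : 0 < m ^ (0.048 : ℝ) := Real.rpow_pos_of_pos hm0 _
  rcases le_or_gt m (2 ^ 16) with h16 | h16
  · have h1 := H26U.rt_all n hn j hinj (fun i hi => by
      have h2 := hlow i hi
      intro h3
      rw [h3] at h2
      push_cast at h2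
      linarith)
    refine h1.trans ?_
    have h2 : m ^ (0.048 : ℝ) ≤ 1.71 := by
      calc m ^ (0.048 : ℝ) ≤ ((2 : ℝ) ^ 16) ^ (0.048 : ℝ) :=
            Real.rpow_le_rpow hm0.le h16 (by norm_num)
        _ = ((2 : ℝ) ^ (0.048 : ℝ)) ^ 16 := by
            rw [← Real.rpow_natCast, ← Real.rpow_natCast, ← Real.rpow_mul (by norm_num),
              ← Real.rpow_mul (by norm_num), mul_comm]
        _ ≤ (10339 / 10000) ^ 16 :=
            pow_le_pow_left₀ (by positivity) rate 16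
        _ ≤ 1.71 := by norm_num
    rw [hneg]
    have h3 : 1 / 1.71 ≤ 1 / m ^ (0.048 : ℝ) := one_div_le_one_div_of_le hmp h2
    norm_num at h3 ⊢
    linarith
  rcases le_or_gt m (2 ^ 24) with h24 | h24
  · have h1 := H26U.rt_16 n hn j hinj (fun i hi => by
      have h2 := hlow i hi
      have h3 : (65536 : ℝ) ≤ (H26U.Tn^[i] n : ℝ) := by
        norm_num at h16
        linarith
      exact_mod_cast h3)
    refine h1.trans ?_
    have h2 : m ^ (0.048 : ℝ) ≤ 2.24 := by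
      calc m ^ (0.048 : ℝ) ≤ ((2 : ℝ) ^ 24) ^ (0.048 : ℝ) :=
            Real.rpow_le_rpow hm0.le h24 (by norm_num)
        _ = ((2 : ℝ) ^ (0.048 : ℝ)) ^ 24 := by
            rw [← Real.rpow_natCast, ← Real.rpow_natCast, ← Real.rpow_mul (by norm_num),
              ← Real.rpow_mul (by norm_num), mul_comm]
        _ ≤ (10339 / 10000) ^ 24 :=
            pow_le_pow_left₀ (by positivity) rate 24
        _ ≤ 2.24 := by norm_num
    rw [hneg]
    have h3 : 1 / 2.24 ≤ 1 / m ^ (0.048 : ℝ) := one_div_le_one_div_of_le hmp h2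
    norm_num at h3 ⊢
    linarith
  · set M : ℕ := ⌈m⌉₊ with hM
    have hyM : m ≤ M := Nat.le_ceil m
    have hM1 : 14155776 ≤ M := by
      have h1 : (2 ^ 24 : ℝ) < M := lt_of_lt_of_le h24 hyM
      have h2 : 2 ^ 24 < M := by exact_mod_cast h1
      omega
    obtain ⟨k, hk1, hk2⟩ := NN_nat hM1
    have hM0 : (0 : ℝ) < M := by linarith
    set u : ℝ := m ^ (-0.048 : ℝ) with hu
    have hu0 : 0 < u := Real.rpow_pos_of_pos hm0 _
    have h4 := pw k hm0 (hyM.trans (by exact_mod_cast hk2.le))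
    rw [← hu] at h4
    -- `u ≤ 0.46`
    have hu1 : u ≤ 0.46 := by
      have h5 : (2.2 : ℝ) ≤ m ^ (0.048 : ℝ) := by
        have h6 : (2.2 : ℝ) ^ 125 ≤ (m ^ (0.048 : ℝ)) ^ 125 := by
          have h7 : (m ^ (0.048 : ℝ)) ^ 125 = m ^ 6 := by
            rw [← Real.rpow_natCast, ← Real.rpow_mul hm0.le, ← Real.rpow_natCast]
            norm_num
          rw [h7]
          calc (2.2 : ℝ) ^ 125 ≤ (2 ^ 24) ^ 6 := by norm_num
            _ ≤ m ^ 6 := pow_le_pow_left₀ (by norm_num) h24.le 6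
        exact le_of_pow_le_pow_left₀ (by norm_num) hmp.le h6
      rw [hneg, div_le_iff₀ hmp]
      linarith
    -- `1 / M ≤ u / 4096`
    have hMu : 1 / (M : ℝ) ≤ u / 4096 := by
      have h5 : m ^ (0.048 : ℝ) ≤ m ^ (0.5 : ℝ) :=
        Real.rpow_le_rpow_of_exponent_le (by linarith) (by norm_num)
      have h6 : m ^ (0.5 : ℝ) * m ^ (0.5 : ℝ) = m := by
        rw [← Real.rpow_add hm0]
        norm_num
      have h7 : (4096 : ℝ) ≤ m ^ (0.5 : ℝ) := by
        have h8 : (4096 : ℝ) ^ 2 ≤ (m ^ (0.5 : ℝ)) ^ 2 := by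
          rw [pow_two (m ^ (0.5 : ℝ)), h6]
          norm_num at h24 ⊢
          linarith
        exact le_of_pow_le_pow_left₀ (by norm_num) (by positivity) h8
      rw [hneg, div_div, div_le_div_iff₀ hM0 (by positivity), one_mul, one_mul]
      calc m ^ (0.048 : ℝ) * 4096 ≤ m ^ (0.5 : ℝ) * m ^ (0.5 : ℝ) :=
            mul_le_mul h5 h7 (by norm_num) (by positivity)
        _ = m := h6
        _ ≤ M := hyM
    have hx : 1 / 4 * (1.4177 * (10000 / 10339) ^ k + 1 / (M : ℝ)) ≤ 0.8082 * u := by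
      linarith
    have hE : Real.exp (1 / 4 * (1.4177 * (10000 / 10339) ^ k + 1 / (M : ℝ))) ≤ 1 + 1.3 * u := by
      refine (Real.exp_le_exp.2 hx).trans ?_
      have h5 := Real.add_one_le_exp (-(0.8082 * u))
      rw [Real.exp_neg] at h5
      have h6 : 0 < Real.exp (0.8082 * u) := Real.exp_pos _
      have h7 : (-(0.8082 * u) + 1) * Real.exp (0.8082 * u) ≤ 1 := by
        have := mul_le_mul_of_nonneg_right h5 h6.le
        rwa [inv_mul_cancel₀ h6.ne'] at this
      have h8 : 1 ≤ (1 + 1.3 * u) * (-(0.8082 * u) + 1) := by nlinarith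
      have h9 : 0 < -(0.8082 * u) + 1 := by linarith
      have h10 : (-(0.8082 * u) + 1) * Real.exp (0.8082 * u) ≤
          (-(0.8082 * u) + 1) * (1 + 1.3 * u) := by linarith
      exact le_of_mul_le_mul_left h10 h9
    have h1 := H26U.factor M (by omega) (1.4177 * (10000 / 10339) ^ k) (1 + 1.3 * u)
      (by linarith) hE
      (fun n hn h3 j hinj hlow => piece_tail n hn h3 j M k hM1 hk1 hinj hlow) n hn j hinj
      (fun i hi => by
        rw [hM]
        exact Nat.ceil_le.2 (hlow i hi))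
    refine h1.trans ?_
    have h2 : 1 / (3 * (M : ℝ)) = 1 / 3 * (1 / M) := by
      field_simp
    rw [h2]
    have h3 : 0 ≤ 1 / (M : ℝ) := by positivity
    nlinarith

end Pool.Agent.Lib.MP_edb5be_nt.H26W
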